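import Mathlib

set_option autoImplicit false

open NumberField IsDedekindDomain

namespace Pool.Agent.P.MP_20768c_nt.Cs

section
variable {G A ι : Type} [Group G] [TopologicalSpace G] [AddCommGroup A]

/-- The elements of `2`-power order of `A`. -/
def Tor (A : Type) [AddCommGroup A] : AddSubgroup A where
  carrier := {P | ∃ n : ℕ, 2 ^ n • P = 0}
  zero_mem' := ⟨0, nsmul_zero _⟩
  add_mem' := by
    rintro P Q ⟨n, hP⟩ ⟨m, hQ⟩
    refine ⟨n + m, ?_⟩
    rw [nsmul_add, pow_add, mul_nsmul, hP, mul_nsmul', hQ, nsmul_zero, nsmul_zero, add_zero]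
  neg_mem' := by
    rintro P ⟨n, hP⟩
    exact ⟨n, by rw [neg_nsmul, hP, neg_zero]⟩

/-- The restriction of an endomorphism of `A` to the elements of `2`-power order. -/
def res (f : A →+ A) : Tor A →+ Tor A where
  toFun P := ⟨f P.1, by
    obtain ⟨n, hn⟩ := P.2
    exact ⟨n, by rw [← map_nsmul, hn, map_zero]⟩⟩
  map_zero' := Subtype.ext (map_zero f)
  map_add' P Q := Subtype.ext (map_add f P.1 Q.1)

/-- Continuous cocycles `H → A` for the action `ρ` that vanish on `I` and are coboundaries on
`Z V` for every `V` with `p V`. -/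
def Coc (ρ : G → A →+ A) (H I : Subgroup G) (p : ι → Prop) (Z : ι → Subgroup G) :
    AddSubgroup (H → A) where
  carrier := {c | IsLocallyConstant c ∧ (∀ g h, c (g * h) = c g + ρ g.1 (c h)) ∧
    (∀ g, g.1 ∈ I → c g = 0) ∧ ∀ V, p V → ∃ a, ∀ g, g.1 ∈ Z V → c g = ρ g.1 a - a}
  zero_mem' := ⟨IsLocallyConstant.const 0, fun g h => by simp, fun _ _ => rfl,
    fun _ _ => ⟨0, fun g _ => by simp⟩⟩
  add_mem' := by
    rintro c c' ⟨h1, h2, h3, h4⟩ ⟨k1, k2, k3, k4⟩
    refine ⟨h1.add k1, fun g h => ?_, fun g hg => ?_, fun V hV => ?_⟩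
    · simp only [Pi.add_apply, h2, k2, map_add]
      abel
    · simp [h3 g hg, k3 g hg]
    · obtain ⟨a, ha⟩ := h4 V hV
      obtain ⟨b, hb⟩ := k4 V hV
      refine ⟨a + b, fun g hg => ?_⟩
      simp only [Pi.add_apply, ha g hg, hb g hg, map_add]
      abel
  neg_mem' := by
    rintro c ⟨h1, h2, h3, h4⟩
    refine ⟨h1.neg, fun g h => ?_, fun g hg => ?_, fun V hV => ?_⟩
    · simp only [Pi.neg_apply, h2, map_neg]
      abel
    · simp [h3 g hg]
    · obtain ⟨a, ha⟩ := h4 V hV
      refine ⟨-a, fun g hg => ?_⟩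
      simp only [Pi.neg_apply, ha g hg, map_neg]
      abel

/-- The cocycles of `Coc` modulo the coboundaries. -/
def Cls (ρ : G → A →+ A) (H I : Subgroup G) (p : ι → Prop) (Z : ι → Subgroup G) : Type :=
  Coc ρ H I p Z ⧸ (AddSubgroup.closure
    (Set.range fun (a : A) (g : H) => ρ g.1 a - a)).addSubgroupOf (Coc ρ H I p Z)

/-- The quotient group structure. -/
instance clsGrp (ρ : G → A →+ A) (H I : Subgroup G) (p : ι → Prop) (Z : ι → Subgroup G) :
    AddCommGroup (Cls ρ H I p Z) :=
  QuotientAddGroup.Quotient.addCommGroup _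

/-- The dual `Hom(A, ℚ_2/ℤ_2)` is a finitely generated `ℤ_2`-module. -/
def DualFG (A : Type) [AddCommGroup A] : Prop :=
  Module.Finite ℤ_[2] (A →+ ℚ_[2] ⧸ (1 : Submodule ℤ_[2] ℚ_[2]))

end

variable {K : Type} [Field K]

/-- The absolute Galois group of `K`, with the Krull topology. -/
abbrev Gal (K : Type) [Field K] : Type := AlgebraicClosure K ≃ₐ[K] AlgebraicClosure K

/-- The points of `E` over the algebraic closure. -/
def Pt (E : WeierstrassCurve K) : Type := (E.baseChange (AlgebraicClosure K)).toAffine.Point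

open Classical in
/-- The group law on the points of `E`. -/
noncomputable instance ptGrp (E : WeierstrassCurve K) : AddCommGroup (Pt E) :=
  WeierstrassCurve.Affine.Point.instAddCommGroup

open Classical in
/-- The Galois action on the points of `E`. -/
noncomputable def act (E : WeierstrassCurve K) (g : Gal K) : Pt E →+ Pt E :=
  WeierstrassCurve.Affine.Point.map (W' := E.toAffine) g.toAlgHom

/-- The place `V` of the algebraic closure lies above a prime in `S`. -/
def Above (S : Set (HeightOneSpectrum (𝓞 K))) (V : ValuationSubring (AlgebraicClosure K)) : Prop :=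
  ∃ p ∈ S, ∀ x ∈ p.asIdeal, V.valuation (algebraMap (𝓞 K) (AlgebraicClosure K) x) < 1

/-- `K_S`, the field fixed by the inertia groups of all places not above `S`. -/
noncomputable def KS (S : Set (HeightOneSpectrum (𝓞 K))) :
    IntermediateField K (AlgebraicClosure K) :=
  IntermediateField.fixedField (⨆ V : {V // ¬ Above S V},
    (V.1.inertiaSubgroup K).map (V.1.decompositionSubgroup K).subtype)

/-- The fine Selmer group `R(E[2^∞]/F)`: continuous cocycles on `Gal(K̄/F)` with values in `E[2^∞]`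
that factor through `Gal(K_S/F)` and are coboundaries on the decomposition group of every place
above `S`, modulo the coboundaries. -/
abbrev Sel (E : WeierstrassCurve K) (S : Set (HeightOneSpectrum (𝓞 K)))
    (F : IntermediateField K (AlgebraicClosure K)) : Type :=
  Cls (fun g => res (act E g)) F.fixingSubgroup (KS S).fixingSubgroup (Above S)
    fun V => V.decompositionSubgroup K

/-- `F` is a `ℤ_2`-extension of `K` inside `K(μ_{2^∞})`. -/
def IsCyc (F : IntermediateField K (AlgebraicClosure K)) : Prop :=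
  F ≤ IntermediateField.adjoin K {x | ∃ n : ℕ, x ^ 2 ^ n = 1} ∧ IsGalois K F ∧
    Nonempty ((F ≃ₐ[K] F) ≃ₜ* Multiplicative ℤ_[2])

end Pool.Agent.P.MP_20768c_nt.Cs
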